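import Pool.Graph.R_pool_sql_team_seeded_efc1946e.K1H79.RF.SmA
import Pool.Graph.R_seed8.Y772.DK.Main
import Pool.Graph.R_seed8.Y772.NZ.Zeta
import Pool.Graph.R_seed8.Y773.HG.Rs
import Pool.Graph.R_seed8.Y772.HG.Sgn

/-! # Sums over the primes of a number field near `s = 1`: all primes, and cubic class characters

Owner helper514.  Proofs of the statements `S_A1` and `S_A2` of the library project `K1H79.RF`. -/

set_option autoImplicit false

namespace Pool.Agent.H514.RF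

open NumberField IsDedekindDomain Ideal CohNT Complex Filter Topology
open Pool.Agent.Y773 Pool.Agent.Y772.DK Pool.Agent.K1H79.RF
open scoped Classical nonZeroDivisors

variable {F : Type} [Field F] [NumberField F]

/-- the norm of a prime -/
noncomputable abbrev nm (v : Pr F) : ℕ := absNorm v.asIdeal

theorem nm_two (v : Pr F) : 2 ≤ nm v := by
  have h1 := nv_pos v
  have h2 : absNorm v.asIdeal ≠ 1 := by
    rw [Ne, absNorm_eq_one_iff]
    exact v.isPrime.ne_top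
  show 2 ≤ absNorm v.asIdeal
  omega

theorem prime_v (v : Pr F) : Prime v.asIdeal := Ideal.prime_of_isPrime v.ne_bot v.isPrime

theorem inj_v : Function.Injective (fun v : Pr F => v.asIdeal) := fun _ _ h => HeightOneSpectrum.ext h

/-- proper prime powers -/
def PP (𝔞 : Ideal (𝓞 F)) : Prop := ∃ (v : Pr F) (k : ℕ), 𝔞 = v.asIdeal ^ (k + 2)

/-- the sum over the proper prime powers -/
noncomputable def q (𝔞 : Ideal (𝓞 F)) : ℝ := if PP 𝔞 then nr F 1 𝔞 else 0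

theorem q_nonneg (𝔞 : Ideal (𝓞 F)) : 0 ≤ q 𝔞 := by
  unfold q
  split_ifs
  · exact nr_nonneg F _ _
  · exact le_rfl

theorem q_summable : Summable (q (F := F)) := by
  have hinj : Function.Injective (fun x : Pr F × ℕ => x.1.asIdeal ^ (x.2 + 2)) := by
    rintro ⟨v, k⟩ ⟨w, l⟩ h
    have h' : v.asIdeal ^ (k + 2) = w.asIdeal ^ (l + 2) := h
    have h1 : v = w := by
      apply HeightOneSpectrum.ext
      have h2 : (v.asIdeal ^ (k + 2)).radical = (w.asIdeal ^ (l + 2)).radical := by rw [h']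
      rw [Ideal.radical_pow _ (by omega), Ideal.radical_pow _ (by omega),
        v.isPrime.radical, w.isPrime.radical] at h2
      exact h2
    subst h1
    have h3 := congrArg absNorm h'
    rw [map_pow, map_pow] at h3
    have h4 := Nat.pow_right_injective (nm_two v) h3
    have h5 : k = l := by omega
    rw [h5]
  have hsup : ∀ 𝔞 ∉ Set.range (fun x : Pr F × ℕ => x.1.asIdeal ^ (x.2 + 2)), q 𝔞 = 0 := by
    intro 𝔞 h
    unfold q
    rw [if_neg]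
    rintro ⟨v, k, hk⟩
    exact h ⟨(v, k), hk.symm⟩
  rw [← hinj.summable_iff hsup]
  have h1 : Summable fun v : Pr F => 2 * ((nm v : ℕ) : ℝ) ^ (-(2 : ℝ)) :=
    (nv_sum (F := F) (s := 2) (by norm_num)).mul_left 2
  have hq : ∀ x : Pr F × ℕ, (q ∘ fun x : Pr F × ℕ => x.1.asIdeal ^ (x.2 + 2)) x =
      ((nm x.1 : ℝ)⁻¹) ^ (x.2 + 2) := by
    rintro ⟨v, k⟩
    show q (v.asIdeal ^ (k + 2)) = _
    unfold q nr
    rw [if_pos ⟨v, k, rfl⟩, Real.rpow_neg_one, map_pow, Nat.cast_pow, inv_pow]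
  rw [summable_congr hq]
  have hgeo : ∀ v : Pr F, HasSum (fun k : ℕ => ((nm v : ℝ)⁻¹) ^ (k + 2))
      (((nm v : ℝ)⁻¹) ^ 2 * (1 - (nm v : ℝ)⁻¹)⁻¹) := by
    intro v
    have h2 : (2 : ℝ) ≤ nm v := by exact_mod_cast nm_two v
    have h3 : (nm v : ℝ)⁻¹ < 1 := inv_lt_one_of_one_lt₀ (by linarith)
    have h4 := (hasSum_geometric_of_lt_one (inv_nonneg.2 (by linarith)) h3).mul_left (((nm v : ℝ)⁻¹) ^ 2)
    refine h4.congr_fun fun k => ?_
    rw [pow_add, mul_comm]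
  rw [summable_prod_of_nonneg (fun x => by positivity)]
  refine ⟨fun v => (hgeo v).summable, ?_⟩
  refine Summable.of_nonneg_of_le (fun v => tsum_nonneg fun k => by positivity) (fun v => ?_) h1
  rw [(hgeo v).tsum_eq]
  have h2 : (2 : ℝ) ≤ nm v := by exact_mod_cast nm_two v
  have h3 : (nm v : ℝ)⁻¹ ≤ 2⁻¹ := inv_anti₀ (by norm_num) h2
  have h4 : (1 - (nm v : ℝ)⁻¹)⁻¹ ≤ 2 := by
    rw [inv_le_comm₀ (by linarith) (by norm_num)]
    linarith
  have h5 : ((nm v : ℕ) : ℝ) ^ (-(2 : ℝ)) = ((nm v : ℝ)⁻¹) ^ 2 := by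
    rw [Real.rpow_neg (by positivity), inv_pow]
    norm_cast
  rw [h5, mul_comm (2 : ℝ)]
  exact mul_le_mul_of_nonneg_left h4 (by positivity)

/-- the sum over the primes -/
noncomputable def Pm (ψ : Ideal (𝓞 F) →*₀ ℂ) (s : ℝ) : ℂ :=
  ∑' v : Pr F, ψ v.asIdeal * ((absNorm v.asIdeal : ℕ) : ℂ) ^ (-(s : ℂ))

theorem ee_prime (ψ : Ideal (𝓞 F) →*₀ ℂ) (v : Pr F) : ee ψ v.asIdeal = ψ v.asIdeal := by
  have h1 := VM_pow (prime_v v) (k := 1) one_ne_zero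
  rw [pow_one] at h1
  have h2 : (1 : ℝ) < absNorm v.asIdeal := by
    have := nm_two v
    have h3 : (2 : ℝ) ≤ absNorm v.asIdeal := by exact_mod_cast this
    linarith
  unfold Pool.Agent.Y772.DK.ee
  rw [h1, div_self (Real.log_pos h2).ne', ofReal_one, one_mul]

theorem ee_not {ψ : Ideal (𝓞 F) →*₀ ℂ} (hψ : ∀ 𝔞, ‖ψ 𝔞‖ ≤ 1) {𝔞 : Ideal (𝓞 F)}
    (h : 𝔞 ∉ Set.range (fun v : Pr F => v.asIdeal)) {s : ℝ} (hs : 1 < s) :
    ‖ee ψ 𝔞 * ((absNorm 𝔞 : ℕ) : ℂ) ^ (-(s : ℂ))‖ ≤ q 𝔞 := by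
  by_cases hp : PP 𝔞
  · unfold q
    rw [if_pos hp]
    exact term_le (ee_zero ψ) (ee_le ψ hψ) (by rw [ofReal_re]; exact hs.le) 𝔞
  · have h1 : ¬ IsPrimePow 𝔞 := by
      rintro ⟨P, k, hP, hk, rfl⟩
      have hPv : P ≠ ⊥ := hP.ne_zero
      set v : Pr F := ⟨P, Ideal.isPrime_of_prime hP, hPv⟩ with hv
      rcases Nat.lt_or_ge k 2 with h2 | h2
      · have h3 : k = 1 := by omega
        apply h
        exact ⟨v, by rw [h3, pow_one]⟩
      · apply hp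
        refine ⟨v, k - 2, ?_⟩
        rw [Nat.sub_add_cancel h2]
    have h2 : ee ψ 𝔞 = 0 := by
      unfold Pool.Agent.Y772.DK.ee
      rw [VM_of_not h1, zero_div, ofReal_zero, zero_mul]
    rw [h2, zero_mul, norm_zero]
    exact q_nonneg 𝔞

/-- the logarithm of the L-function is the sum over the primes up to a bounded error -/
theorem LA_Pm (ψ : Ideal (𝓞 F) →*₀ ℂ) (hψ : ∀ 𝔞, ‖ψ 𝔞‖ ≤ 1) {s : ℝ} (hs : 1 < s) :
    ‖LA (ee ψ) (s : ℂ) - Pm ψ s‖ ≤ ∑' 𝔞 : Ideal (𝓞 F), q 𝔞 := by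
  have hs' : 1 < ((s : ℂ)).re := by rw [ofReal_re]; exact hs
  obtain ⟨f, hf⟩ : ∃ f : Ideal (𝓞 F) → ℂ, f = fun 𝔞 => ee ψ 𝔞 * ((absNorm 𝔞 : ℕ) : ℂ) ^ (-(s : ℂ)) := ⟨_, rfl⟩
  obtain ⟨f1, hf1⟩ : ∃ f1 : Ideal (𝓞 F) → ℂ,
    f1 = fun 𝔞 => if 𝔞 ∈ Set.range (fun v : Pr F => v.asIdeal) then f 𝔞 else 0 := ⟨_, rfl⟩
  have hsum : HasSum f (LA (ee ψ) (s : ℂ)) := by
    rw [hf]
    exact (term_summable (ee_zero ψ) (ee_le ψ hψ) hs').of_norm.hasSum
  have hsum1 : HasSum f1 (Pm ψ s) := by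
    have h0 : ∀ 𝔞 ∉ Set.range (fun v : Pr F => v.asIdeal), f1 𝔞 = 0 := by
      intro 𝔞 h
      rw [hf1]
      exact if_neg h
    rw [← (inj_v (F := F)).hasSum_iff h0]
    have h1 : (f1 ∘ fun v : Pr F => v.asIdeal) =
        fun v : Pr F => ψ v.asIdeal * ((absNorm v.asIdeal : ℕ) : ℂ) ^ (-(s : ℂ)) := by
      funext v
      show f1 v.asIdeal = _
      rw [hf1]
      simp only
      rw [if_pos ⟨v, rfl⟩, hf]
      show Pool.Agent.Y772.DK.ee ψ v.asIdeal * _ = _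
      rw [ee_prime]
    rw [h1]
    refine Summable.hasSum ?_
    have h2 := (hsum.summable.norm).comp_injective (inj_v (F := F))
    refine Summable.of_norm (h2.congr fun v => ?_)
    show ‖f v.asIdeal‖ = _
    rw [hf]
    show ‖Pool.Agent.Y772.DK.ee ψ v.asIdeal * _‖ = _
    rw [ee_prime]
  have hd := hsum.sub hsum1
  rw [← hd.tsum_eq]
  refine tsum_of_norm_bounded (q_summable (F := F)).hasSum fun 𝔞 => ?_
  by_cases h : 𝔞 ∈ Set.range (fun v : Pr F => v.asIdeal)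
  · have h1 : f1 𝔞 = f 𝔞 := by
      rw [hf1]
      exact if_pos h
    rw [h1, sub_self, norm_zero]
    exact q_nonneg 𝔞
  · have h1 : f1 𝔞 = 0 := by
      rw [hf1]
      exact if_neg h
    rw [h1, sub_zero, hf]
    exact ee_not hψ h hs

/-- the real part of the sum over the primes is the logarithm of the absolute value -/
theorem re_Pm (ψ : Ideal (𝓞 F) →*₀ ℂ) (hψ : ∀ 𝔞, ‖ψ 𝔞‖ ≤ 1) {s : ℝ} (hs : 1 < s) :
    |Real.log ‖LI ψ (s : ℂ)‖ - (Pm ψ s).re| ≤ ∑' 𝔞 : Ideal (𝓞 F), q 𝔞 := by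
  have hs' : 1 < ((s : ℂ)).re := by rw [ofReal_re]; exact hs
  rw [LI_eq_exp ψ hψ hs', Complex.norm_exp, Real.log_exp, ← sub_re]
  exact (abs_re_le_norm _).trans (LA_Pm ψ hψ hs)

theorem LI_pos (ψ : Ideal (𝓞 F) →*₀ ℂ) (hψ : ∀ 𝔞, ‖ψ 𝔞‖ ≤ 1) {s : ℝ} (hs : 1 < s) :
    0 < ‖LI ψ (s : ℂ)‖ := by
  have hs' : 1 < ((s : ℂ)).re := by rw [ofReal_re]; exact hs
  rw [LI_eq_exp ψ hψ hs', Complex.norm_exp]
  exact Real.exp_pos _

/-- away from `1` -/
theorem log_away (ψ : Ideal (𝓞 F) →*₀ ℂ) (hψ : ∀ 𝔞, ‖ψ 𝔞‖ ≤ 1) {δ : ℝ} (hδ : 0 < δ) :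
    ∃ C : ℝ, ∀ s : ℝ, 1 + δ ≤ s → |Real.log ‖LI ψ (s : ℂ)‖| ≤ C := by
  refine ⟨∑' 𝔞 : Ideal (𝓞 F), nr F (1 + δ) 𝔞, fun s hs => ?_⟩
  have hs' : 1 < ((s : ℂ)).re := by rw [ofReal_re]; linarith
  rw [LI_eq_exp ψ hψ hs', Complex.norm_exp, Real.log_exp]
  exact (abs_re_le_norm _).trans (LA_le (ee_zero ψ) (ee_le ψ hψ) (by linarith) (by rw [ofReal_re]; exact hs))

theorem tends1 : Tendsto (fun s : ℝ => (s : ℂ)) (𝓝[>] 1) (𝓝 (1 : ℂ)) := by
  have h0 := (continuous_ofReal.tendsto (1 : ℝ))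
  rw [ofReal_one] at h0
  exact h0.mono_left nhdsWithin_le_nhds

theorem exists_del {P : ℝ → Prop} (h : ∀ᶠ s in 𝓝[>] (1 : ℝ), P s) :
    ∃ δ : ℝ, 0 < δ ∧ ∀ s : ℝ, 1 < s → s < 1 + δ → P s := by
  rw [eventually_nhdsWithin_iff, Metric.eventually_nhds_iff] at h
  obtain ⟨δ, hδ, h⟩ := h
  refine ⟨δ, hδ, fun s h1 h2 => h ?_ h1⟩
  rw [Real.dist_eq, abs_lt]
  constructor <;> linarith

/-- an L-function which is continuous at `1` gives a sum over primes bounded above -/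
theorem Pm_upper (ψ : Ideal (𝓞 F) →*₀ ℂ) (hψ : ∀ 𝔞, ‖ψ 𝔞‖ ≤ 1)
    (hg : ∃ g : ℂ → ℂ, AnalyticAt ℂ g 1 ∧ ∀ s : ℂ, 1 < s.re → LI ψ s = g s) :
    ∃ C : ℝ, ∀ s : ℝ, 1 < s → (Pm ψ s).re ≤ C := by
  obtain ⟨g, hg1, hg2⟩ := hg
  have h1 : ∀ᶠ z in 𝓝 (1 : ℂ), ‖g z‖ < ‖g 1‖ + 1 :=
    hg1.continuousAt.norm.eventually_lt_const (lt_add_one _)
  obtain ⟨δ, hδ, h2⟩ := exists_del (tends1.eventually h1)
  obtain ⟨C1, hC1⟩ := log_away ψ hψ hδ
  refine ⟨max C1 (Real.log (‖g 1‖ + 1)) + ∑' 𝔞 : Ideal (𝓞 F), q 𝔞, fun s hs => ?_⟩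
  have h3 := (abs_le.1 (re_Pm ψ hψ hs)).1
  have h4 : Real.log ‖LI ψ (s : ℂ)‖ ≤ max C1 (Real.log (‖g 1‖ + 1)) := by
    rcases lt_or_ge s (1 + δ) with h5 | h5
    · refine le_trans ?_ (le_max_right _ _)
      refine Real.log_le_log (LI_pos ψ hψ hs) ?_
      rw [hg2 (s : ℂ) (by rw [ofReal_re]; exact hs)]
      exact (h2 s hs h5).le
    · exact ((le_abs_self _).trans (hC1 s h5)).trans (le_max_left _ _)
  linarith

open Pool.Agent.Y772.NZ in
theorem t_A1 : S_A1 := by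
  intro F _ _
  obtain ⟨g, hg1, hg0, hg2⟩ := near_one F
  have hψ := one_norm F
  have hpos : 0 < ‖g 1‖ := norm_pos_iff.2 hg0
  have h1 : ∀ᶠ z in 𝓝 (1 : ℂ), ‖g z‖ < ‖g 1‖ + 1 :=
    hg1.continuousAt.norm.eventually_lt_const (lt_add_one _)
  have h2 : ∀ᶠ z in 𝓝 (1 : ℂ), ‖g 1‖ / 2 < ‖g z‖ :=
    hg1.continuousAt.norm.eventually_const_lt (by linarith)
  obtain ⟨δ, hδ, h3⟩ := exists_del (tends1.eventually ((h1.and h2).and hg2))
  obtain ⟨C1, hC1⟩ := log_away (one F) hψ hδ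
  have hC1n : 0 ≤ C1 := (abs_nonneg _).trans (hC1 (1 + δ) le_rfl)
  refine ⟨|Real.log (‖g 1‖ + 1)| + |Real.log (‖g 1‖ / 2)| + C1 + |Real.log δ| +
    ∑' 𝔞 : Ideal (𝓞 F), q 𝔞, fun s hs hs2 => ?_⟩
  have h4 := re_Pm (one F) hψ hs
  have h5 : (Pm (one F) s).re = Sm F (fun _ => True) s := by
    have h6 : Pm (one F) s = ((∑' v : Pr F, ((absNorm v.asIdeal : ℕ) : ℝ) ^ (-s) : ℝ) : ℂ) := by
      unfold Pm
      rw [ofReal_tsum]
      refine tsum_congr fun v => ?_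
      rw [one_ne F v.ne_bot, one_mul, ofReal_cpow (Nat.cast_nonneg _)]
      push_cast
      rfl
    rw [h6, ofReal_re]
    unfold Sm
    refine tsum_congr fun v => ?_
    rw [if_pos trivial]
  rw [h5] at h4
  have hs1 : 0 < s - 1 := by linarith
  have hL : |Real.log ‖LI (one F) (s : ℂ)‖ - Real.log (1 / (s - 1))| ≤
      |Real.log (‖g 1‖ + 1)| + |Real.log (‖g 1‖ / 2)| + C1 + |Real.log δ| := by
    rcases lt_or_ge s (1 + δ) with h6 | h6
    · obtain ⟨⟨h7, h8⟩, h9⟩ := h3 s hs h6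
      rw [h9 (by rw [ofReal_re]; exact hs), norm_div]
      have h10 : ‖(s : ℂ) - 1‖ = s - 1 := by
        rw [← ofReal_one, ← ofReal_sub, norm_real, Real.norm_of_nonneg hs1.le]
      have hgs : 0 < ‖g (s : ℂ)‖ := by linarith
      rw [h10, Real.log_div hgs.ne' hs1.ne', one_div, Real.log_inv, sub_neg_eq_add, sub_add_cancel]
      have h11 : Real.log ‖g (s : ℂ)‖ ≤ Real.log (‖g 1‖ + 1) := Real.log_le_log hgs h7.le
      have h12 : Real.log (‖g 1‖ / 2) ≤ Real.log ‖g (s : ℂ)‖ := Real.log_le_log (by linarith) h8.le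
      have h13 := le_abs_self (Real.log (‖g 1‖ + 1))
      have h14 := neg_abs_le (Real.log (‖g 1‖ / 2))
      have h15 := abs_nonneg (Real.log (‖g 1‖ + 1))
      have h16 := abs_nonneg (Real.log (‖g 1‖ / 2))
      have h17 := abs_nonneg (Real.log δ)
      rw [abs_le]
      constructor <;> linarith
    · have h7 := hC1 s h6
      have h8 : |Real.log (1 / (s - 1))| ≤ |Real.log δ| := by
        rw [one_div, Real.log_inv, abs_neg]
        have h9 : Real.log δ ≤ Real.log (s - 1) := Real.log_le_log hδ (by linarith)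
        have h10 : Real.log (s - 1) ≤ 0 := Real.log_nonpos hs1.le (by linarith)
        rw [abs_of_nonpos h10, abs_of_nonpos (h9.trans h10)]
        linarith
      have h9 := abs_sub (Real.log ‖LI (one F) (s : ℂ)‖) (Real.log (1 / (s - 1)))
      have h15 := abs_nonneg (Real.log (‖g 1‖ + 1))
      have h16 := abs_nonneg (Real.log (‖g 1‖ / 2))
      linarith
  rw [abs_le] at h4 hL ⊢
  constructor <;> linarith [h4.1, h4.2, hL.1, hL.2]

/-- a cubic character of the class group as a function on the ideals -/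
noncomputable def et (χ : ClassGroup (𝓞 F) →* ℂ) : Ideal (𝓞 F) →*₀ ℂ where
  toFun 𝔞 := if h : 𝔞 = 0 then 0 else χ (ClassGroup.mk0 ⟨𝔞, mem_nonZeroDivisors_of_ne_zero h⟩)
  map_zero' := dif_pos rfl
  map_one' := by
    rw [dif_neg one_ne_zero]
    have h1 : (⟨1, mem_nonZeroDivisors_of_ne_zero one_ne_zero⟩ : (Ideal (𝓞 F))⁰) = 1 := rfl
    rw [h1, map_one, map_one]
  map_mul' 𝔞 𝔟 := by
    by_cases h1 : 𝔞 = 0
    · rw [dif_pos h1, zero_mul, dif_pos (by rw [h1, zero_mul])]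
    · by_cases h2 : 𝔟 = 0
      · rw [dif_pos h2, mul_zero, dif_pos (by rw [h2, mul_zero])]
      · rw [dif_neg h1, dif_neg h2, dif_neg (mul_ne_zero h1 h2), ← map_mul, ← map_mul]
        rfl

theorem et_ne (χ : ClassGroup (𝓞 F) →* ℂ) {𝔞 : Ideal (𝓞 F)} (h : 𝔞 ≠ 0) :
    et χ 𝔞 = χ (ClassGroup.mk0 ⟨𝔞, mem_nonZeroDivisors_of_ne_zero h⟩) := dif_neg h

/-- the standard character of `ZMod 3` -/
noncomputable def c3 : Multiplicative (ZMod 3) →* ℂ := (ZMod.stdAddChar (N := 3)).toMonoidHom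

theorem c3_cube (x : Multiplicative (ZMod 3)) : c3 x ^ 3 = 1 := by
  rw [← map_pow]
  have h1 : x ^ 3 = 1 := by revert x; decide
  rw [h1, map_one]

theorem c3_norm (x : Multiplicative (ZMod 3)) : ‖c3 x‖ = 1 :=
  Complex.norm_eq_one_of_pow_eq_one (c3_cube x) (by norm_num)

theorem c3_ne {x : Multiplicative (ZMod 3)} (hx : x ≠ 1) : c3 x ≠ 1 := by
  intro h
  apply hx
  have h1 : ZMod.stdAddChar (N := 3) (Multiplicative.toAdd x) = 1 := h
  have h2 : ZMod.stdAddChar (N := 3) (Multiplicative.toAdd x) = ZMod.stdAddChar (N := 3) 0 := by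
    rw [h1, AddChar.map_zero_eq_one]
  have h3 := ZMod.injective_stdAddChar h2
  exact Multiplicative.toAdd.injective (by rw [h3, toAdd_one])

theorem c3_re (x : Multiplicative (ZMod 3)) : 1 + 2 * (c3 x).re = if x = 1 then 3 else 0 := by
  split_ifs with h
  · rw [h, map_one, one_re]
    norm_num
  · have h1 := c3_cube x
    have h2 := c3_ne h
    have h3 : c3 x ^ 2 + c3 x + 1 = 0 := by
      have h4 : (c3 x - 1) * (c3 x ^ 2 + c3 x + 1) = 0 := by linear_combination h1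
      rcases mul_eq_zero.1 h4 with h5 | h5
      · exact absurd (sub_eq_zero.1 h5) h2
      · exact h5
    have h5 : c3 x * (starRingEnd ℂ) (c3 x) = 1 := by
      rw [Complex.mul_conj, Complex.normSq_eq_norm_sq, c3_norm]
      norm_num
    have h6 : c3 x + 1 + (starRingEnd ℂ) (c3 x) = 0 := by
      have h7 : c3 x ≠ 0 := by
        intro h8
        rw [h8] at h5
        simp at h5
      have h8 : c3 x * (c3 x + 1 + (starRingEnd ℂ) (c3 x)) = 0 := by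
        rw [mul_add, h5]
        linear_combination h3
      exact (mul_eq_zero.1 h8).resolve_left h7
    have h9 := congrArg Complex.re h6
    rw [add_re, add_re, one_re, conj_re, zero_re] at h9
    linarith

theorem t_A2 : S_A2 := by
  intro F _ _ Φ hΦ
  obtain ⟨χ, hχ⟩ : ∃ χ : ClassGroup (𝓞 F) →* ℂ, χ = c3.comp Φ := ⟨_, rfl⟩
  have hval : ∀ c, χ c = c3 (Φ c) := fun c => by rw [hχ]; rfl
  have hn1 : ∀ 𝔞 : Ideal (𝓞 F), ‖et χ 𝔞‖ ≤ 1 := by
    intro 𝔞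
    by_cases h : 𝔞 = 0
    · rw [h, map_zero, norm_zero]
      exact zero_le_one
    · rw [et_ne χ h, hval, c3_norm]
  have hcop : ∀ 𝔞 : Ideal (𝓞 F), IsCoprime 𝔞 (⊤ : Ideal (𝓞 F)) := by
    intro 𝔞
    rw [Ideal.isCoprime_iff_sup_eq, sup_top_eq]
  have hg : ∃ g : ℂ → ℂ, AnalyticAt ℂ g 1 ∧ ∀ s : ℂ, 1 < s.re → LI (et χ) s = g s := by
    refine Pool.Agent.Y773.G.LI_cont Pool.Agent.Y772.G.t_sig (𝔪 := ⊤) top_ne_bot ?_ ?_ ?_
    · intro 𝔞 h
      refine ⟨fun _ => hcop 𝔞, fun _ => ?_⟩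
      rw [et_ne χ h, hval]
      intro h1
      have h2 := c3_norm (Φ (ClassGroup.mk0 ⟨𝔞, mem_nonZeroDivisors_of_ne_zero h⟩))
      rw [h1, norm_zero] at h2
      exact zero_ne_one h2
    · intro x hx _ _
      have h1 : Ideal.span {x} ≠ 0 := by
        rw [Ne, Ideal.zero_eq_bot, Ideal.span_singleton_eq_bot]
        exact hx
      rw [et_ne χ h1]
      have h2 : ClassGroup.mk0 (⟨Ideal.span {x}, mem_nonZeroDivisors_of_ne_zero h1⟩ : (Ideal (𝓞 F))⁰) = 1 := by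
        rw [ClassGroup.mk0_eq_one_iff]
        exact ⟨⟨x, rfl⟩⟩
      rw [h2, map_one]
    · obtain ⟨c, hc⟩ : ∃ c, Φ c ≠ 1 := by
        by_contra h
        push Not at h
        exact hΦ (MonoidHom.ext h)
      obtain ⟨J, hJ⟩ := ClassGroup.mk0_surjective c
      refine ⟨J.1, nonZeroDivisors.ne_zero J.2, hcop _, ?_⟩
      rw [et_ne χ (nonZeroDivisors.ne_zero J.2), hval]
      have h1 : (⟨J.1, mem_nonZeroDivisors_of_ne_zero (nonZeroDivisors.ne_zero J.2)⟩ : (Ideal (𝓞 F))⁰) = J := rfl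
      rw [h1, hJ]
      exact c3_ne hc
  obtain ⟨C1, hC1⟩ := Pm_upper (et χ) hn1 hg
  obtain ⟨C0, hC0⟩ := t_A1 F
  refine ⟨C0 + 2 * C1, fun s hs hs2 => ?_⟩
  have h1 := hC1 s hs
  have h2 := (abs_le.1 (hC0 s hs hs2)).2
  have h3 : HasSum (fun v : Pr F => (et χ v.asIdeal * ((absNorm v.asIdeal : ℕ) : ℂ) ^ (-(s : ℂ))).re)
      (Pm (et χ) s).re := by
    refine Complex.hasSum_re (Summable.hasSum ?_)
    refine Summable.of_norm (Summable.of_nonneg_of_le (fun _ => norm_nonneg _) (fun v => ?_) (nv_sum (F := F) hs))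
    rw [norm_mul, Complex.norm_natCast_cpow_of_pos (nv_pos v), neg_re, ofReal_re]
    calc ‖et χ v.asIdeal‖ * ((absNorm v.asIdeal : ℕ) : ℝ) ^ (-s) ≤ 1 * ((absNorm v.asIdeal : ℕ) : ℝ) ^ (-s) :=
          mul_le_mul_of_nonneg_right (hn1 _) (nv_nonneg v s)
      _ = _ := one_mul _
  have h4 : 3 * Sm F (fun v => Φ (ClassGroup.mk0 (pI v)) = 1) s =
      Sm F (fun _ => True) s + 2 * (Pm (et χ) s).re := by
    have h5 := (sm_hasSum (fun v : Pr F => Φ (ClassGroup.mk0 (pI v)) = 1) hs).mul_left 3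
    have h6 := (sm_hasSum (fun _ : Pr F => True) hs).add (h3.mul_left 2)
    refine h5.unique (h6.congr_fun fun v => ?_)
    rw [if_pos trivial]
    have h7 : (et χ v.asIdeal * ((absNorm v.asIdeal : ℕ) : ℂ) ^ (-(s : ℂ))).re =
        (c3 (Φ (ClassGroup.mk0 (pI v)))).re * ((absNorm v.asIdeal : ℕ) : ℝ) ^ (-s) := by
      have h8 : ((absNorm v.asIdeal : ℕ) : ℂ) ^ (-(s : ℂ)) = ((((absNorm v.asIdeal : ℕ) : ℝ) ^ (-s) : ℝ) : ℂ) := by
        rw [ofReal_cpow (Nat.cast_nonneg _)]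
        push_cast
        rfl
      rw [h8, re_mul_ofReal, et_ne χ v.ne_bot, hval]
      rfl
    rw [h7]
    have h9 := c3_re (Φ (ClassGroup.mk0 (pI v)))
    split_ifs with h10
    · rw [if_pos h10] at h9
      linear_combination -((absNorm v.asIdeal : ℕ) : ℝ) ^ (-s) * h9
    · rw [if_neg h10] at h9
      linear_combination -((absNorm v.asIdeal : ℕ) : ℝ) ^ (-s) * h9
  rw [h4]
  linarith

end Pool.Agent.H514.RF
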